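import Mathlib
import Pool.Agent.H68R2.BP.Props2

open scoped ComplexOrder InnerProductSpace ComplexConjugate Topology
open Finset Filter

noncomputable section

namespace H68R2.BP

open H759R2.Kad H744R2.KZ

namespace KDecAux

variable {H : Type} [NormedAddCommGroup H] [InnerProductSpace ℂ H] [CompleteSpace H]

theorem inner_T {ι : Type} [Fintype ι] (a : ι → (H →L[ℂ] H)) (u v : H) :
    ⟪u, (∑ i, star (a i) * a i) v⟫_ℂ = ∑ i, ⟪a i u, a i v⟫_ℂ := by
  rw [ContinuousLinearMap.sum_apply, inner_sum]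
  refine Finset.sum_congr rfl fun i _ => ?_
  rw [ContinuousLinearMap.mul_apply, ContinuousLinearMap.star_eq_adjoint,
    ContinuousLinearMap.adjoint_inner_right]

theorem colN_apply {ι : Type} [Fintype ι] (a : ι → (H →L[ℂ] H)) (v : H) :
    ∑ i, ‖a i v‖ ^ 2 ≤ colN a * ‖v‖ ^ 2 := by
  have h1 : ((∑ i, ‖a i v‖ ^ 2 : ℝ) : ℂ) = ⟪v, (∑ i, star (a i) * a i) v⟫_ℂ := by
    rw [inner_T]
    push_cast
    exact Finset.sum_congr rfl fun i _ => (inner_self_eq_norm_sq_to_K (𝕜 := ℂ) (a i v)).symm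
  have h2 : ∑ i, ‖a i v‖ ^ 2 = ‖⟪v, (∑ i, star (a i) * a i) v⟫_ℂ‖ := by
    rw [← h1, Complex.norm_real, Real.norm_of_nonneg (Finset.sum_nonneg fun i _ => by positivity)]
  rw [h2]
  calc ‖⟪v, (∑ i, star (a i) * a i) v⟫_ℂ‖ ≤ ‖v‖ * ‖(∑ i, star (a i) * a i) v‖ := norm_inner_le_norm _ _
    _ ≤ ‖v‖ * (‖∑ i, star (a i) * a i‖ * ‖v‖) :=
        mul_le_mul_of_nonneg_left (ContinuousLinearMap.le_opNorm _ _) (norm_nonneg _)
    _ = colN a * ‖v‖ ^ 2 := by unfold colN; ring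

theorem colN_le {ι : Type} [Fintype ι] (a : ι → (H →L[ℂ] H)) (c : ℝ) (hc : 0 ≤ c)
    (h : ∀ v, ∑ i, ‖a i v‖ ^ 2 ≤ c * ‖v‖ ^ 2) : colN a ≤ c := by
  unfold colN
  refine ContinuousLinearMap.opNorm_le_bound _ hc fun v => ?_
  set T := ∑ i, star (a i) * a i with hT
  by_cases h0 : ‖T v‖ = 0
  · rw [h0]; positivity
  have hpos : 0 < ‖T v‖ := lt_of_le_of_ne (norm_nonneg _) (Ne.symm h0)
  have h1 : ‖T v‖ ^ 2 = ‖⟪T v, T v⟫_ℂ‖ := by
    rw [inner_self_eq_norm_sq_to_K]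
    simp
  have h2 : ‖⟪T v, T v⟫_ℂ‖ ≤ ∑ i, ‖a i (T v)‖ * ‖a i v‖ := by
    rw [hT, inner_T]
    refine (norm_sum_le _ _).trans (Finset.sum_le_sum fun i _ => norm_inner_le_norm _ _)
  have h3 : (∑ i, ‖a i (T v)‖ * ‖a i v‖) ^ 2 ≤ (∑ i, ‖a i (T v)‖ ^ 2) * ∑ i, ‖a i v‖ ^ 2 :=
    Finset.sum_mul_sq_le_sq_mul_sq _ _ _
  have h4 : (‖T v‖ ^ 2) ^ 2 ≤ (c * ‖T v‖ ^ 2) * (c * ‖v‖ ^ 2) := by
    calc (‖T v‖ ^ 2) ^ 2 ≤ (∑ i, ‖a i (T v)‖ * ‖a i v‖) ^ 2 := by
          rw [h1]; exact pow_le_pow_left₀ (norm_nonneg _) h2 2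
      _ ≤ _ := h3
      _ ≤ _ := mul_le_mul (h _) (h _) (Finset.sum_nonneg fun i _ => by positivity) (by positivity)
  have h5 : ‖T v‖ ^ 2 ≤ (c * ‖v‖) ^ 2 := by
    have h6 : 0 < ‖T v‖ ^ 2 := by positivity
    have h7 : ‖T v‖ ^ 2 * ‖T v‖ ^ 2 ≤ ‖T v‖ ^ 2 * (c * ‖v‖) ^ 2 := by
      calc ‖T v‖ ^ 2 * ‖T v‖ ^ 2 = (‖T v‖ ^ 2) ^ 2 := by ring
        _ ≤ (c * ‖T v‖ ^ 2) * (c * ‖v‖ ^ 2) := h4
        _ = ‖T v‖ ^ 2 * (c * ‖v‖) ^ 2 := by ring
    exact le_of_mul_le_mul_left h7 h6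
  exact le_of_sq_le_sq h5 (by positivity)

theorem rowN_eq {ι : Type} [Fintype ι] (a : ι → (H →L[ℂ] H)) :
    rowN a = colN (fun i => star (a i)) := by
  unfold rowN colN
  simp only [star_star]

theorem colN_tri {ι : Type} [Fintype ι] (a b : ι → (H →L[ℂ] H)) (α β μ : ℝ) (hα : 0 < α)
    (hβ : 0 < β) (hμ : 0 ≤ μ) (ha : colN a ≤ α ^ 2 * μ) (hb : colN b ≤ β ^ 2 * μ) :
    colN (fun i => a i - b i) ≤ (α + β) ^ 2 * μ := by
  refine colN_le _ _ (by positivity) fun v => ?_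
  have h1 : ∀ x y : ℝ, (x + y) ^ 2 ≤ (1 + β / α) * x ^ 2 + (1 + α / β) * y ^ 2 := by
    intro x y
    have : (1 + β / α) * x ^ 2 + (1 + α / β) * y ^ 2 - (x + y) ^ 2 =
        (β * x - α * y) ^ 2 / (α * β) := by
      field_simp
      ring
    have h2 : 0 ≤ (β * x - α * y) ^ 2 / (α * β) := by positivity
    linarith
  have ha' : ∑ i, ‖a i v‖ ^ 2 ≤ α ^ 2 * μ * ‖v‖ ^ 2 :=
    (colN_apply a v).trans (mul_le_mul_of_nonneg_right ha (by positivity))
  have hb' : ∑ i, ‖b i v‖ ^ 2 ≤ β ^ 2 * μ * ‖v‖ ^ 2 :=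
    (colN_apply b v).trans (mul_le_mul_of_nonneg_right hb (by positivity))
  calc ∑ i, ‖(a i - b i) v‖ ^ 2
      ≤ ∑ i, ((1 + β / α) * ‖a i v‖ ^ 2 + (1 + α / β) * ‖b i v‖ ^ 2) := by
        refine Finset.sum_le_sum fun i _ => ?_
        refine le_trans (pow_le_pow_left₀ (norm_nonneg _) ?_ 2) (h1 _ _)
        rw [ContinuousLinearMap.sub_apply]
        exact norm_sub_le _ _
    _ = (1 + β / α) * ∑ i, ‖a i v‖ ^ 2 + (1 + α / β) * ∑ i, ‖b i v‖ ^ 2 := by
        rw [Finset.sum_add_distrib, Finset.mul_sum, Finset.mul_sum]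
    _ ≤ (1 + β / α) * (α ^ 2 * μ * ‖v‖ ^ 2) + (1 + α / β) * (β ^ 2 * μ * ‖v‖ ^ 2) :=
        add_le_add (mul_le_mul_of_nonneg_left ha' (by positivity))
          (mul_le_mul_of_nonneg_left hb' (by positivity))
    _ = (α + β) ^ 2 * μ * ‖v‖ ^ 2 := by
        field_simp
        ring

theorem rowN_tri {ι : Type} [Fintype ι] (a b : ι → (H →L[ℂ] H)) (α β μ : ℝ) (hα : 0 < α)
    (hβ : 0 < β) (hμ : 0 ≤ μ) (ha : rowN a ≤ α ^ 2 * μ) (hb : rowN b ≤ β ^ 2 * μ) :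
    rowN (fun i => a i - b i) ≤ (α + β) ^ 2 * μ := by
  rw [rowN_eq] at ha hb ⊢
  simp only [star_sub]
  exact colN_tri _ _ α β μ hα hβ hμ ha hb

end KDecAux

open KDecAux in
theorem prove_K_dec (h1 : K_op) : K_dec := by
  intro H _ _ _ S κ _ _ _ b l r th hrep ι _ x μ W hT hμ hcx hrx
  choose A C hx hA hC using fun m : ℕ =>
    h1 H S κ b l r th hrep ι x μ ((4:ℝ) ^ m / 4 ^ W) hT (by positivity)
  have h4 : ∀ m : ℕ, (4:ℝ) ^ m = (2 ^ m) ^ 2 := by
    intro m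
    rw [← pow_mul, mul_comm m 2, pow_mul]; norm_num
  have hcol : ∀ m, colN (A m) ≤ ((2:ℝ) ^ m / 2 ^ W) ^ 2 * μ := by
    intro m
    have := hA m
    rw [h4, h4, ← div_pow] at this
    exact this
  have hrow : ∀ m, rowN (C m) ≤ ((2:ℝ) ^ W / 2 ^ m) ^ 2 * μ := by
    intro m
    have := hC m
    rw [h4, h4, ← div_pow] at this
    refine this.trans (le_of_eq ?_)
    field_simp
  have hcx' : colN x ≤ ((2:ℝ) ^ W) ^ 2 * μ := by rw [← h4]; exact hcx
  have hrx' : rowN x ≤ ((2:ℝ) ^ W) ^ 2 * μ := by rw [← h4]; exact hrx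
  have hAC : ∀ m, A m = fun i => x i - C m i := by
    intro m; funext i; rw [hx m i]; abel
  have hCA : ∀ m, C m = fun i => x i - A m i := by
    intro m; funext i; rw [hx m i]; abel
  have hAA : ∀ m k, (fun i => A m i - A k i) = fun i => C k i - C m i := by
    intro m k; funext i
    have e1 := hx m i
    have e2 := hx k i
    have : A m i + C m i = A k i + C k i := by rw [← e1, ← e2]
    rw [sub_eq_sub_iff_add_eq_add, this]; abel
  refine ⟨fun j i => if (j : ℕ) = 0 then A 0 i else if (j : ℕ) = 2 * W + 1 then C (2 * W) i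
    else A j i - A (j - 1 : ℕ) i, ?_, ?_⟩
  · intro i
    rw [Fin.sum_univ_eq_sum_range (fun j : ℕ => if j = 0 then A 0 i else
      if j = 2 * W + 1 then C (2 * W) i else A j i - A (j - 1) i) (2 * W + 2)]
    rw [Finset.sum_range_succ, Finset.sum_range_succ']
    have e1 : ∑ k ∈ range (2 * W), (if k + 1 = 0 then A 0 i else
        if k + 1 = 2 * W + 1 then C (2 * W) i else A (k + 1) i - A (k + 1 - 1) i) =
        ∑ k ∈ range (2 * W), (A (k + 1) i - A k i) := by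
      refine Finset.sum_congr rfl fun k hk => ?_
      rw [Finset.mem_range] at hk
      rw [if_neg (by omega), if_neg (by omega), Nat.add_sub_cancel]
    rw [e1, Finset.sum_range_sub (fun k => A k i), if_pos rfl, if_neg (by omega), if_pos rfl,
      hx (2 * W) i]
    abel
  · intro j
    obtain ⟨j, hj⟩ := j
    show colN (fun i => if j = 0 then A 0 i else if j = 2 * W + 1 then C (2 * W) i
        else A j i - A (j - 1) i) ≤ _ ∧ rowN (fun i => if j = 0 then A 0 i else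
          if j = 2 * W + 1 then C (2 * W) i else A j i - A (j - 1) i) ≤ _
    rcases Nat.eq_zero_or_pos j with h0 | h0
    · subst h0
      simp only [if_true]
      have hμ4 : 0 < μ / 4 ^ W := by positivity
      refine ⟨(hA 0).trans ?_, ?_⟩
      · have : (4:ℝ) ^ 0 / 4 ^ W * μ = μ / 4 ^ W := by rw [pow_zero]; ring
        have h2 : 9 * ((4:ℝ) ^ ((⟨0, hj⟩ : Fin (2 * W + 2)) : ℕ) / 4 ^ W) * μ = 9 * (μ / 4 ^ W) := by
          simp only [pow_zero]; ring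
        rw [this, h2]; linarith
      · rw [hAC 0]
        refine (rowN_tri x (C 0) (2 ^ W) (2 ^ W) μ (by positivity) (by positivity) hμ.le hrx'
          (by simpa using hrow 0)).trans ?_
        have h2 : 9 * ((4:ℝ) ^ W / 4 ^ ((⟨0, hj⟩ : Fin (2 * W + 2)) : ℕ)) * μ = 9 * (4 ^ W * μ) := by
          simp only [pow_zero]; ring
        rw [h2, h4 W]
        have h3 : 0 < ((2:ℝ) ^ W) ^ 2 * μ := by positivity
        nlinarith
    · by_cases hl : j = 2 * W + 1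
      · subst hl
        simp only [if_neg (Nat.succ_ne_zero _), if_true]
        refine ⟨?_, (hC (2 * W)).trans ?_⟩
        · rw [hCA (2 * W)]
          have e : ((2:ℝ) ^ (2 * W) / 2 ^ W) = 2 ^ W := by
            rw [two_mul, pow_add]; field_simp
          have hc := hcol (2 * W)
          rw [e] at hc
          refine (colN_tri x (A (2 * W)) (2 ^ W) (2 ^ W) μ (by positivity) (by positivity) hμ.le hcx'
            hc).trans ?_
          have e2 : 9 * ((4:ℝ) ^ (((⟨2 * W + 1, hj⟩ : Fin (2 * W + 2)) : ℕ)) / 4 ^ W) * μ =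
              36 * (4 ^ W * μ) := by
            show 9 * ((4:ℝ) ^ (2 * W + 1) / 4 ^ W) * μ = _
            rw [pow_succ, two_mul, pow_add]; field_simp; ring
          rw [e2, h4 W]
          have h3 : 0 < ((2:ℝ) ^ W) ^ 2 * μ := by positivity
          nlinarith
        · have e2 : 9 * ((4:ℝ) ^ W / 4 ^ (((⟨2 * W + 1, hj⟩ : Fin (2 * W + 2)) : ℕ))) * μ =
              9 / 4 * (μ / (4 ^ (2 * W) / 4 ^ W)) := by
            show 9 * ((4:ℝ) ^ W / 4 ^ (2 * W + 1)) * μ = _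
            rw [pow_succ, two_mul, pow_add]; field_simp
          rw [e2]
          have : 0 < μ / ((4:ℝ) ^ (2 * W) / 4 ^ W) := by positivity
          linarith
      · obtain ⟨k, rfl⟩ : ∃ k, j = k + 1 := ⟨j - 1, by omega⟩
        simp only [if_neg (Nat.succ_ne_zero _), if_neg hl, Nat.add_sub_cancel]
        refine ⟨?_, ?_⟩
        · refine (colN_tri (A (k + 1)) (A k) _ _ μ (by positivity) (by positivity) hμ.le
            (hcol (k + 1)) (hcol k)).trans ?_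
          have e1 : ((2:ℝ) ^ (k + 1) / 2 ^ W + 2 ^ k / 2 ^ W) ^ 2 * μ = 9 * (4 ^ k / 4 ^ W * μ) := by
            rw [h4, h4]; field_simp; ring
          have e2 : 9 * ((4:ℝ) ^ (((⟨k + 1, hj⟩ : Fin (2 * W + 2)) : ℕ)) / 4 ^ W) * μ =
              36 * (4 ^ k / 4 ^ W * μ) := by
            show 9 * ((4:ℝ) ^ (k + 1) / 4 ^ W) * μ = _
            rw [pow_succ]; ring
          rw [e1, e2]
          have : 0 < (4:ℝ) ^ k / 4 ^ W * μ := by positivity
          linarith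
        · rw [hAA (k + 1) k]
          refine (rowN_tri (C k) (C (k + 1)) _ _ μ (by positivity) (by positivity) hμ.le
            (hrow k) (hrow (k + 1))).trans (le_of_eq ?_)
          show _ = 9 * ((4:ℝ) ^ W / 4 ^ (k + 1)) * μ
          rw [h4, h4]; field_simp; ring

end H68R2.BP
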