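import Mathlib
import Pool.Agent.H68R2.BP.Props2

open scoped ComplexOrder InnerProductSpace ComplexConjugate Topology
open Finset Filter

noncomputable section

namespace H68R2.BP

open H759R2.Kad H744R2.KZ

namespace TAnAux

theorem kt_nonneg (θ t : ℝ) : 0 ≤ kt θ t := by
  unfold kt
  have := Real.cosh_pos (Real.pi * t)
  positivity

theorem kt_cont (θ : ℝ) : Continuous (kt θ) := by
  unfold kt
  refine Continuous.div (by fun_prop) ?_ ?_
  · exact continuous_const.mul (Real.continuous_cosh.comp (continuous_const.mul continuous_id))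
  · intro t
    have := Real.cosh_pos (Real.pi * t)
    positivity

theorem kt_le (θ t : ℝ) (hθ : |θ| < Real.pi) :
    kt θ t ≤ (1 + 2 / (Real.pi - |θ|) ^ 2) * (1 + t ^ 2)⁻¹ := by
  set a := Real.pi - |θ| with ha
  have hapos : 0 < a := by rw [ha]; linarith
  have h1 : Real.exp (Real.pi * |t|) ≤ 2 * Real.cosh (Real.pi * t) := by
    rw [Real.cosh_eq]
    rcases le_total 0 t with h | h
    · rw [abs_of_nonneg h]
      have := Real.exp_pos (-(Real.pi * t))
      linarith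
    · rw [abs_of_nonpos h]
      have := Real.exp_pos (Real.pi * t)
      have e : Real.pi * -t = -(Real.pi * t) := by ring
      rw [e]
      linarith
  have h2 : Real.exp (-θ * t) ≤ Real.exp (|θ| * |t|) := by
    apply Real.exp_le_exp.2
    calc -θ * t ≤ |-θ * t| := le_abs_self _
      _ = |θ| * |t| := by rw [abs_mul, abs_neg]
  have h3 : 1 + t ^ 2 ≤ (1 + 2 / a ^ 2) * Real.exp (a * |t|) := by
    have h4 := Real.quadratic_le_exp_of_nonneg (x := a * |t|) (by positivity)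
    have h5 : 1 ≤ Real.exp (a * |t|) := Real.one_le_exp (by positivity)
    have h6 : (a * |t|) ^ 2 / 2 ≤ Real.exp (a * |t|) := by
      have : 0 ≤ a * |t| := by positivity
      linarith
    have h7 : t ^ 2 = 2 / a ^ 2 * ((a * |t|) ^ 2 / 2) := by
      rw [mul_pow, sq_abs]; field_simp
    rw [h7, add_mul, one_mul]
    exact add_le_add h5 (mul_le_mul_of_nonneg_left h6 (by positivity))
  have h8 : kt θ t ≤ Real.exp (-(a * |t|)) := by
    unfold kt
    rw [div_le_iff₀ (by have := Real.cosh_pos (Real.pi * t); positivity)]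
    calc Real.exp (-θ * t) ≤ Real.exp (|θ| * |t|) := h2
      _ = Real.exp (-(a * |t|)) * Real.exp (Real.pi * |t|) := by
          rw [← Real.exp_add]; congr 1; rw [ha]; ring
      _ ≤ _ := mul_le_mul_of_nonneg_left h1 (Real.exp_pos _).le
  refine h8.trans ?_
  rw [Real.exp_neg, ← div_eq_mul_inv, le_div_iff₀ (by positivity), inv_mul_le_iff₀ (Real.exp_pos _)]
  rw [mul_comm]
  exact h3

theorem kt_int (θ : ℝ) (hθ : |θ| < Real.pi) : MeasureTheory.Integrable (kt θ) := by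
  refine MeasureTheory.Integrable.mono' (integrable_inv_one_add_sq.const_mul
    (1 + 2 / (Real.pi - |θ|) ^ 2)) (kt_cont θ).aestronglyMeasurable ?_
  refine MeasureTheory.ae_of_all _ fun t => ?_
  rw [Real.norm_of_nonneg (kt_nonneg θ t)]
  exact kt_le θ t hθ

variable {H : Type} [NormedAddCommGroup H] [InnerProductSpace ℂ H] [CompleteSpace H]

/-- the matrix coefficient -/
def F (U : ℝ → (H →L[ℂ] H)) (z : H →L[ℂ] H) (a b : H) (t : ℝ) : ℂ :=
  ⟪U (-t) a, z (U (-t) b)⟫_ℂ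

theorem F_cont (U : ℝ → (H →L[ℂ] H)) (Uc : ∀ x, Continuous fun t => U t x) (z : H →L[ℂ] H)
    (a b : H) : Continuous (F U z a b) := by
  unfold F
  refine Continuous.inner ?_ (z.continuous.comp ?_)
  · exact (Uc a).comp continuous_neg
  · exact (Uc b).comp continuous_neg

theorem F_le (U : ℝ → (H →L[ℂ] H)) (Un : ∀ t, ‖U t‖ ≤ 1) (z : H →L[ℂ] H) (a b : H) (t : ℝ) :
    ‖F U z a b t‖ ≤ ‖a‖ * (‖z‖ * ‖b‖) := by
  unfold F
  have hU : ∀ x, ‖U (-t) x‖ ≤ ‖x‖ := fun x => by
    calc ‖U (-t) x‖ ≤ ‖U (-t)‖ * ‖x‖ := ContinuousLinearMap.le_opNorm _ _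
      _ ≤ 1 * ‖x‖ := mul_le_mul_of_nonneg_right (Un _) (norm_nonneg _)
      _ = ‖x‖ := one_mul _
  calc ‖⟪U (-t) a, z (U (-t) b)⟫_ℂ‖ ≤ ‖U (-t) a‖ * ‖z (U (-t) b)‖ := norm_inner_le_norm _ _
    _ ≤ ‖a‖ * (‖z‖ * ‖b‖) := mul_le_mul (hU a)
        ((ContinuousLinearMap.le_opNorm _ _).trans
          (mul_le_mul_of_nonneg_left (hU b) (norm_nonneg _))) (norm_nonneg _) (norm_nonneg _)

/-- the local formula for matrix coefficients -/
theorem local_coef (U : ℝ → (H →L[ℂ] H)) (Ust : ∀ t, star (U t) = U (-t)) (Un : ∀ t, ‖U t‖ ≤ 1)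
    (h c z X : H →L[ℂ] H) (κ : ℂ) (θ : ℝ) (hθ : |θ| < Real.pi) (csa : star c = c) (cn : ‖c‖ ≤ 1)
    (hc : h * c = c * h) (UcC : ∀ t, U t * c = c * U t)
    (Ue : ∀ t : ℝ, U t * c = NormedSpace.exp ((Complex.I * t) • h) * c)
    (hloc : κ • (c * X * c) =
      ∫ t : ℝ, (kt θ t : ℂ) • (NormedSpace.exp ((Complex.I * t) • h) * (c * z * c) *
        NormedSpace.exp (-(Complex.I * t) • h))) (η ξ : H) :
    κ * ⟪c η, X (c ξ)⟫_ℂ = ∫ t : ℝ, (kt θ t : ℂ) * F U z (c η) (c ξ) t := by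
  have e1 : ∀ t : ℝ, NormedSpace.exp ((Complex.I * t) • h) * (c * z * c) *
        NormedSpace.exp (-(Complex.I * t) • h) = U t * c * z * (U (-t) * c) := by
    intro t
    have e2 : c * NormedSpace.exp (-(Complex.I * t) • h) =
        NormedSpace.exp (-(Complex.I * t) • h) * c := by
      have : Commute c (-(Complex.I * t) • h) := (Commute.smul_right (show Commute c h from hc.symm) _)
      exact this.exp_right
    have e3 : NormedSpace.exp (-(Complex.I * t) • h) * c = U (-t) * c := by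
      rw [Ue (-t)]
      congr 3
      push_cast
      ring
    calc NormedSpace.exp ((Complex.I * t) • h) * (c * z * c) * NormedSpace.exp (-(Complex.I * t) • h)
        = (NormedSpace.exp ((Complex.I * t) • h) * c) * z *
          (c * NormedSpace.exp (-(Complex.I * t) • h)) := by simp only [mul_assoc]
      _ = _ := by rw [e2, e3, ← Ue t]
  have hint : MeasureTheory.Integrable (fun t : ℝ => (kt θ t : ℂ) •
      (NormedSpace.exp ((Complex.I * t) • h) * (c * z * c) *
        NormedSpace.exp (-(Complex.I * t) • h))) := by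
    letI : NormedAlgebra ℚ (H →L[ℂ] H) := NormedAlgebra.restrictScalars ℚ ℂ (H →L[ℂ] H)
    refine MeasureTheory.Integrable.mono' ((kt_int θ hθ).mul_const ‖z‖) ?_ ?_
    · refine Continuous.aestronglyMeasurable ?_
      refine (Complex.continuous_ofReal.comp (kt_cont θ)).smul ?_
      refine Continuous.mul (Continuous.mul ?_ continuous_const) ?_
      · exact NormedSpace.exp_continuous.comp (by fun_prop)
      · exact NormedSpace.exp_continuous.comp (by fun_prop)
    · refine MeasureTheory.ae_of_all _ fun t => ?_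
      rw [e1 t, norm_smul, Complex.norm_real, Real.norm_of_nonneg (kt_nonneg θ t)]
      refine mul_le_mul_of_nonneg_left ?_ (kt_nonneg θ t)
      have hn : ∀ t, ‖U t * c‖ ≤ 1 := fun t => by
        calc ‖U t * c‖ ≤ ‖U t‖ * ‖c‖ := norm_mul_le _ _
          _ ≤ 1 * 1 := mul_le_mul (Un t) cn (norm_nonneg _) zero_le_one
          _ = 1 := one_mul 1
      calc ‖U t * c * z * (U (-t) * c)‖ ≤ ‖U t * c * z‖ * ‖U (-t) * c‖ := norm_mul_le _ _
        _ ≤ (‖U t * c‖ * ‖z‖) * ‖U (-t) * c‖ :=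
            mul_le_mul_of_nonneg_right (norm_mul_le _ _) (norm_nonneg _)
        _ ≤ (1 * ‖z‖) * 1 := mul_le_mul (mul_le_mul_of_nonneg_right (hn t) (norm_nonneg _)) (hn _)
            (norm_nonneg _) (by positivity)
        _ = ‖z‖ := by ring
  have hL := congrArg ((innerSL ℂ η).comp (ContinuousLinearMap.apply ℂ H ξ)) hloc
  rw [← ContinuousLinearMap.integral_comp_comm _ hint] at hL
  have hl : ((innerSL ℂ η).comp (ContinuousLinearMap.apply ℂ H ξ)) (κ • (c * X * c)) =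
      κ * ⟪c η, X (c ξ)⟫_ℂ := by
    rw [map_smul, smul_eq_mul]
    congr 1
    show ⟪η, c (X (c ξ))⟫_ℂ = _
    conv_rhs => rw [← csa, ContinuousLinearMap.star_eq_adjoint]
    rw [ContinuousLinearMap.adjoint_inner_left, ← ContinuousLinearMap.star_eq_adjoint, csa]
  rw [← hl, hL]
  refine MeasureTheory.integral_congr_ae (MeasureTheory.ae_of_all _ fun t => ?_)
  show ((innerSL ℂ η).comp (ContinuousLinearMap.apply ℂ H ξ)) ((kt θ t : ℂ) • _) = _
  rw [e1 t, map_smul, smul_eq_mul]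
  congr 1
  show ⟪η, U t (c (z (U (-t) (c ξ))))⟫_ℂ = ⟪U (-t) (c η), z (U (-t) (c ξ))⟫_ℂ
  have e4 : U (-t) (c η) = c (U (-t) η) := congrArg (fun A : H →L[ℂ] H => A η) (UcC (-t))
  rw [e4, ← Ust t, ContinuousLinearMap.star_eq_adjoint]
  conv_rhs => rw [← csa, ContinuousLinearMap.star_eq_adjoint]
  rw [ContinuousLinearMap.adjoint_inner_left, ContinuousLinearMap.adjoint_inner_left,
    ← ContinuousLinearMap.star_eq_adjoint, ← ContinuousLinearMap.star_eq_adjoint, csa, Ust]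

end TAnAux

open TAnAux in
theorem prove_T_an (h1 : T_cut) (h2 : T_grpU) (h3 : T_loc) (h4 : T_fou) : T_an := by
  intro H _ _ _ R T hR z y hx
  obtain ⟨h, c, hsa, csa, cn, hcR, ccR, hc, hh, cc, e1, e2, hst, ct⟩ := h1 H R T hR
  obtain ⟨U, U0, Ust, Un, Uc, UcC, Ue⟩ := h2 H h c hsa csa cn hc hh cc hst ct
  have hcle : ∀ m x, ‖c m x‖ ≤ ‖x‖ := fun m x => by
    calc ‖c m x‖ ≤ ‖c m‖ * ‖x‖ := ContinuousLinearMap.le_opNorm _ _
      _ ≤ 1 * ‖x‖ := mul_le_mul_of_nonneg_right (cn m) (norm_nonneg _)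
      _ = ‖x‖ := one_mul _
  -- the global formula
  have key : ∀ θ : ℝ, |θ| < Real.pi → ∀ x : H →L[ℂ] H,
      (T * z * T = Complex.exp (Complex.I * θ / 2) • (((2 : ℂ) • 1 - R) * x * R) +
        Complex.exp (-(Complex.I * θ / 2)) • (R * x * ((2 : ℂ) • 1 - R))) → ∀ η ξ : H,
      ((2 * Real.cos (θ / 2) * ∫ t : ℝ, kt θ t : ℝ) : ℂ) * ⟪η, x ξ⟫_ℂ =
        ∫ t : ℝ, (kt θ t : ℂ) * F U z η ξ t := by
    intro θ hθ x hTx η ξ
    have hm : ∀ m, ((2 * Real.cos (θ / 2) * ∫ t : ℝ, kt θ t : ℝ) : ℂ) * ⟪c m η, x (c m ξ)⟫_ℂ =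
        ∫ t : ℝ, (kt θ t : ℂ) * F U z (c m η) (c m ξ) t := fun m =>
      local_coef U Ust Un (h m) (c m) z x _ θ hθ (csa m) (cn m) (hc m m) (fun t => UcC t m)
        (fun t => Ue t m)
        (h3 H R T hR (h m) (c m) (hsa m) (csa m) (hcR m) (ccR m) (hc m m) (e1 m) (e2 m) z x θ hθ hTx)
        η ξ
    have hl : Tendsto (fun m => ((2 * Real.cos (θ / 2) * ∫ t : ℝ, kt θ t : ℝ) : ℂ) *
        ⟪c m η, x (c m ξ)⟫_ℂ) atTop
        (𝓝 (((2 * Real.cos (θ / 2) * ∫ t : ℝ, kt θ t : ℝ) : ℂ) * ⟪η, x ξ⟫_ℂ)) :=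
      ((ct η).inner ((x.continuous.tendsto ξ).comp (ct ξ))).const_mul _
    have hr : Tendsto (fun m => ∫ t : ℝ, (kt θ t : ℂ) * F U z (c m η) (c m ξ) t) atTop
        (𝓝 (∫ t : ℝ, (kt θ t : ℂ) * F U z η ξ t)) := by
      refine MeasureTheory.tendsto_integral_of_dominated_convergence
        (fun t => kt θ t * (‖η‖ * (‖z‖ * ‖ξ‖))) ?_ ((kt_int θ hθ).mul_const _) ?_ ?_
      · intro m
        exact ((Complex.continuous_ofReal.comp (kt_cont θ)).mul
          (F_cont U Uc z _ _)).aestronglyMeasurable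
      · intro m
        refine MeasureTheory.ae_of_all _ fun t => ?_
        rw [norm_mul, Complex.norm_real, Real.norm_of_nonneg (kt_nonneg θ t)]
        refine mul_le_mul_of_nonneg_left ((F_le U Un z _ _ t).trans ?_) (kt_nonneg θ t)
        exact mul_le_mul (hcle m η) (mul_le_mul_of_nonneg_left (hcle m ξ) (norm_nonneg _))
          (by positivity) (norm_nonneg _)
      · refine MeasureTheory.ae_of_all _ fun t => ?_
        refine Tendsto.const_mul _ ?_
        unfold F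
        refine Tendsto.inner ?_ ?_
        · exact ((U (-t)).continuous.tendsto η).comp (ct η)
        · exact (z.continuous.tendsto _).comp (((U (-t)).continuous.tendsto ξ).comp (ct ξ))
    have hr' := hr.congr (fun m => (hm m).symm)
    exact tendsto_nhds_unique hl hr'
  have hFint : ∀ θ : ℝ, |θ| < Real.pi → ∀ a b, MeasureTheory.Integrable
      (fun t : ℝ => (kt θ t : ℂ) * F U z a b t) := by
    intro θ hθ a b
    refine MeasureTheory.Integrable.mono' ((kt_int θ hθ).mul_const (‖a‖ * (‖z‖ * ‖b‖))) ?_ ?_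
    · exact ((Complex.continuous_ofReal.comp (kt_cont θ)).mul
        (F_cont U Uc z _ _)).aestronglyMeasurable
    · refine MeasureTheory.ae_of_all _ fun t => ?_
      rw [norm_mul, Complex.norm_real, Real.norm_of_nonneg (kt_nonneg θ t)]
      exact mul_le_mul_of_nonneg_left (F_le U Un z _ _ t) (kt_nonneg θ t)
  refine ContinuousLinearMap.ext fun ξ => ?_
  refine ext_inner_left ℂ fun η => ?_
  have h5 := h4 (fun t => F U z (star y η) ξ t - F U z η (y ξ) t)
    ((F_cont U Uc z _ _).sub (F_cont U Uc z _ _))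
    ⟨‖star y η‖ * (‖z‖ * ‖ξ‖) + ‖η‖ * (‖z‖ * ‖y ξ‖), fun t =>
      (norm_sub_le _ _).trans (add_le_add (F_le U Un z _ _ t) (F_le U Un z _ _ t))⟩
    (by
      intro θ hθ
      obtain ⟨x, hyx, hTx⟩ := hx θ hθ
      have k1 := key θ hθ x hTx (star y η) ξ
      have k2 := key θ hθ x hTx η (y ξ)
      have e : (fun t : ℝ => (kt θ t : ℂ) * (F U z (star y η) ξ t - F U z η (y ξ) t)) =
          fun t : ℝ => (kt θ t : ℂ) * F U z (star y η) ξ t - (kt θ t : ℂ) * F U z η (y ξ) t := by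
        funext t; ring
      rw [e, MeasureTheory.integral_sub (hFint θ hθ _ _) (hFint θ hθ _ _), ← k1, ← k2]
      have e6 : ⟪star y η, x ξ⟫_ℂ = ⟪η, x (y ξ)⟫_ℂ := by
        rw [ContinuousLinearMap.star_eq_adjoint, ContinuousLinearMap.adjoint_inner_left]
        have : y (x ξ) = x (y ξ) := congrArg (fun A : H →L[ℂ] H => A ξ) hyx
        rw [this]
      rw [e6, sub_self])
  simp only [F, neg_zero, U0] at h5
  have e7 : ⟪star y η, z ξ⟫_ℂ = ⟪η, z (y ξ)⟫_ℂ := by
    have := sub_eq_zero.1 h5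
    simpa using this
  show ⟪η, y (z ξ)⟫_ℂ = ⟪η, z (y ξ)⟫_ℂ
  rw [← e7, ContinuousLinearMap.star_eq_adjoint, ContinuousLinearMap.adjoint_inner_left]

end H68R2.BP
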